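import Mathlib
import Pool.Agent.N848.LT.Stm

/-!
# LT/EXR (helper706 for helper848): the cubic field of discriminant 148
-/

set_option autoImplicit false

namespace Pool.Agent.N706.LT

open NumberField IsDedekindDomain Module Polynomial

/-- no rational root -/
lemma no_rat (p : ℚ) : p ^ 3 - p ^ 2 - 3 * p + 1 ≠ 0 := by
  intro h
  have hint : IsIntegral ℤ p := by
    refine ⟨X ^ 3 - X ^ 2 - 3 * X + 1, ?_, ?_⟩
    · monicity!
    · simpa [eval₂_sub, eval₂_add, eval₂_mul] using h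
  obtain ⟨n, hn⟩ := (IsIntegrallyClosed.isIntegral_iff (R := ℤ) (K := ℚ)).1 hint
  have hn' : (n : ℚ) = p := by simpa using hn
  subst hn'
  have h' : n ^ 3 - n ^ 2 - 3 * n + 1 = 0 := by exact_mod_cast h
  have hu : n * (n ^ 2 - n - 3) = -1 := by linear_combination h'
  have hun : IsUnit n := IsUnit.of_mul_eq_one (-(n ^ 2 - n - 3)) (by linear_combination -hu)
  rcases Int.isUnit_iff.1 hun with h1 | h1
  · subst h1; norm_num at h'
  · subst h1; norm_num at h'

lemma irr : Irreducible (X ^ 3 - X ^ 2 - 3 * X + 1 : ℚ[X]) := by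
  have hdeg : (X ^ 3 - X ^ 2 - 3 * X + 1 : ℚ[X]).natDegree = 3 := by compute_degree!
  refine (Polynomial.irreducible_iff_roots_eq_zero_of_degree_le_three (by omega) (by omega)).2 ?_
  refine Multiset.eq_zero_of_forall_notMem fun p hp => ?_
  have h1 := (Polynomial.mem_roots'.1 hp).2
  rw [Polynomial.IsRoot.def] at h1
  exact no_rat p (by simpa using h1)

lemma exist : ∃ (k : Type) (_ : Field k) (_ : NumberField k) (α : k), finrank ℚ k = 3 ∧
    α ^ 3 - α ^ 2 - 3 * α + 1 = 0 := by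
  have hF : Fact (Irreducible (X ^ 3 - X ^ 2 - 3 * X + 1 : ℚ[X])) := ⟨irr⟩
  have hne : (X ^ 3 - X ^ 2 - 3 * X + 1 : ℚ[X]) ≠ 0 := irr.ne_zero
  have h1 : FiniteDimensional ℚ (AdjoinRoot (X ^ 3 - X ^ 2 - 3 * X + 1 : ℚ[X])) :=
    (AdjoinRoot.powerBasis hne).finite
  have h2 : CharZero (AdjoinRoot (X ^ 3 - X ^ 2 - 3 * X + 1 : ℚ[X])) :=
    algebraRat.charZero _
  refine ⟨AdjoinRoot (X ^ 3 - X ^ 2 - 3 * X + 1 : ℚ[X]), inferInstance, ⟨⟩,
    AdjoinRoot.root _, ?_, ?_⟩
  · rw [(AdjoinRoot.powerBasis hne).finrank, AdjoinRoot.powerBasis_dim]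
    compute_degree!
  · have h := AdjoinRoot.eval₂_root (X ^ 3 - X ^ 2 - 3 * X + 1 : ℚ[X])
    simpa using h

/-- an intermediate field containing the root is everything -/
lemma top_of_mem {k : Type} [Field k] [NumberField k] {α : k} (h3 : finrank ℚ k = 3)
    (hα : α ^ 3 - α ^ 2 - 3 * α + 1 = 0) (S : IntermediateField ℚ k) (hS : α ∈ S) : S = ⊤ := by
  have hs : IsSimpleOrder (IntermediateField ℚ k) :=
    IntermediateField.isSimpleOrder_of_finrank_prime ℚ k (by rw [h3]; norm_num)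
  rcases hs.eq_bot_or_eq_top S with h | h
  · exfalso
    rw [h, IntermediateField.mem_bot] at hS
    obtain ⟨q, rfl⟩ := hS
    have h4 : algebraMap ℚ k (q ^ 3 - q ^ 2 - 3 * q + 1) = 0 := by
      simpa using hα
    exact no_rat q ((map_eq_zero _).1 h4)
  · exact h

/-- every complex root is real -/
lemma real_root (z : ℂ) (hz : z ^ 3 - z ^ 2 - 3 * z + 1 = 0) : ∃ r : ℝ, z = r := by
  have hc : Continuous fun t : ℝ => t ^ 3 - t ^ 2 - 3 * t + 1 := by fun_prop
  obtain ⟨r, ⟨hr1, hr2⟩, hr⟩ := intermediate_value_Icc (show (-2 : ℝ) ≤ 0 by norm_num)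
    hc.continuousOn (show (0 : ℝ) ∈ Set.Icc _ _ by norm_num)
  obtain ⟨s, ⟨hs1, hs2⟩, hs⟩ := intermediate_value_Icc' (show (0 : ℝ) ≤ 1 by norm_num)
    hc.continuousOn (show (0 : ℝ) ∈ Set.Icc _ _ by norm_num)
  simp only at hr hs
  have hrs : r ≠ s := by
    rintro rfl
    have h0 : r = 0 := le_antisymm hr2 hs1
    rw [h0] at hr
    norm_num at hr
  have hr' : (r : ℂ) ^ 3 - (r : ℂ) ^ 2 - 3 * r + 1 = 0 := by exact_mod_cast hr
  have hs' : (s : ℂ) ^ 3 - (s : ℂ) ^ 2 - 3 * s + 1 = 0 := by exact_mod_cast hs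
  have hrs' : (s : ℂ) - r ≠ 0 := by
    intro h
    exact hrs (by exact_mod_cast (sub_eq_zero.1 h).symm)
  have h1 : (z - r) * (z ^ 2 + z * r + r ^ 2 - z - r - 3) = 0 := by
    linear_combination hz - hr'
  rcases mul_eq_zero.1 h1 with h | h
  · exact ⟨r, sub_eq_zero.1 h⟩
  · have h2 : ((s : ℂ) - r) * (s ^ 2 + s * r + r ^ 2 - s - r - 3) = 0 := by
      linear_combination hs' - hr'
    have h3 := (mul_eq_zero.1 h2).resolve_left hrs'
    have h4 : (z - s) * (z + s + r - 1) = 0 := by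
      linear_combination h - h3
    rcases mul_eq_zero.1 h4 with h5 | h5
    · exact ⟨s, sub_eq_zero.1 h5⟩
    · refine ⟨1 - r - s, ?_⟩
      push_cast
      linear_combination h5

/-- two ring homomorphisms agreeing at the root are equal -/
lemma ext_root {k L : Type} [Field k] [NumberField k] [Field L] {α : k} (h3 : finrank ℚ k = 3)
    (hα : α ^ 3 - α ^ 2 - 3 * α + 1 = 0) (φ ψ : k →+* L) (h : φ α = ψ α) : φ = ψ := by
  have hL : CharZero L := charZero_of_injective_ringHom φ.injective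
  have h1 := top_of_mem h3 hα (Subfield.toIntermediateField (RingHom.eqLocusField φ ψ)
    (fun q => by
      change φ (algebraMap ℚ k q) = ψ (algebraMap ℚ k q)
      rw [eq_ratCast, map_ratCast, map_ratCast])) h
  ext x
  have hx : x ∈ (Subfield.toIntermediateField (RingHom.eqLocusField φ ψ)
    (fun q => by
      change φ (algebraMap ℚ k q) = ψ (algebraMap ℚ k q)
      rw [eq_ratCast, map_ratCast, map_ratCast]) : IntermediateField ℚ k) := by
    rw [h1]; exact IntermediateField.mem_top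
  exact hx

lemma tot_real {k : Type} [Field k] [NumberField k] {α : k} (h3 : finrank ℚ k = 3)
    (hα : α ^ 3 - α ^ 2 - 3 * α + 1 = 0) : IsTotallyReal k := by
  refine ⟨fun v => ?_⟩
  rw [InfinitePlace.isReal_iff, ComplexEmbedding.isReal_iff]
  refine ext_root h3 hα _ _ ?_
  obtain ⟨r, hr⟩ := real_root (v.embedding α) (by
    have := congrArg v.embedding hα
    simpa only [map_add, map_sub, map_mul, map_pow, map_one, map_zero, map_ofNat] using this)
  rw [ComplexEmbedding.conjugate_coe_eq, hr, Complex.conj_ofReal]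

lemma not_gal {k : Type} [Field k] [NumberField k] {α : k} (h3 : finrank ℚ k = 3)
    (hα : α ^ 3 - α ^ 2 - 3 * α + 1 = 0) : ¬ IsGalois ℚ k := by
  intro hG
  have hcard : Nat.card (k ≃ₐ[ℚ] k) = 3 := by
    rw [← h3]; exact IsGalois.card_aut_eq_finrank ℚ k
  have hnt : Nontrivial (k ≃ₐ[ℚ] k) := by
    rw [← Finite.one_lt_card_iff_nontrivial, hcard]; norm_num
  obtain ⟨σ, hσ⟩ := exists_ne (1 : k ≃ₐ[ℚ] k)
  have hne : σ α - α ≠ 0 := by
    intro h0
    apply hσ
    have h1 := ext_root h3 hα (σ : k →+* k) (RingHom.id k) (sub_eq_zero.1 h0)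
    ext x
    exact RingHom.congr_fun h1 x
  have hβ : (σ α) ^ 3 - (σ α) ^ 2 - 3 * (σ α) + 1 = 0 := by
    have := congrArg σ hα
    simpa only [map_add, map_sub, map_mul, map_pow, map_one, map_zero, map_ofNat] using this
  set β := σ α with hβd
  have h1 : (β - α) * (β ^ 2 + β * α + α ^ 2 - β - α - 3) = 0 := by
    linear_combination hβ - hα
  have h2 := (mul_eq_zero.1 h1).resolve_left hne
  have h4 : ((2 * β + α - 1) * (3 * α ^ 2 - 2 * α - 3)) ^ 2 = algebraMap ℚ k 148 := by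
    simp only [map_ofNat]
    linear_combination 4 * (3 * α ^ 2 - 2 * α - 3) ^ 2 * h2 +
      (-31 + 81 * α + 27 * α ^ 2 - 27 * α ^ 3) * hα
  have h5 := congrArg (Algebra.norm ℚ) h4
  rw [map_pow, Algebra.norm_algebraMap, h3] at h5
  have h6 : IsSquare (37 : ℚ) := by
    refine ⟨Algebra.norm ℚ ((2 * β + α - 1) * (3 * α ^ 2 - 2 * α - 3)) / 296, ?_⟩
    have : ((Algebra.norm ℚ ((2 * β + α - 1) * (3 * α ^ 2 - 2 * α - 3)) / 296) *
      (Algebra.norm ℚ ((2 * β + α - 1) * (3 * α ^ 2 - 2 * α - 3)) / 296) : ℚ) =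
      (Algebra.norm ℚ ((2 * β + α - 1) * (3 * α ^ 2 - 2 * α - 3))) ^ 2 / 296 ^ 2 := by ring
    rw [this, h5]
    norm_num
  have h7 : IsSquare (37 : ℕ) := by
    rw [← Rat.isSquare_natCast_iff]; exact_mod_cast h6
  obtain ⟨m, hm⟩ := h7
  have h8 : m ≤ 6 := by nlinarith
  interval_cases m <;> omega

theorem t_EXR : Pool.Agent.N848.LT.S_EXR :=
  ⟨exist, fun _ _ _ _ h3 hα => ⟨tot_real h3 hα, not_gal h3 hα⟩⟩

end Pool.Agent.N706.LT

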